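import Pool.Agent.NUU.Disc

/-!
# The functional of the disc for at most three lines (helper51)
-/

set_option autoImplicit false

namespace Pool.Agent.NUT51

open _root_.Pool.Agent.EXL _root_.Pool.Agent.EXL.Pat
open _root_.Pool.Agent.EXL.Fm (lam)
open _root_.Pool.Agent.NUF _root_.Pool.Agent.NUU
open Complex (I exp sin cos)

variable {ι : Type*} [DecidableEq ι] {z : ι → ℂ} {a b p q : ι}

/-- The state with one arc. -/
def arc (a b : ι) : Pat ι := cup a b Pat.empty

theorem arc_apply (a b x : ι) : arc a b x = if x = a then b else if x = b then a else x := by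
  show (if (Pat.empty : Pat ι) a = a ∧ (Pat.empty : Pat ι) b = b then
    (if x = a then b else if x = b then a else (Pat.empty : Pat ι) x) else (Pat.empty : Pat ι) x) = _
  have h : ∀ y, (Pat.empty : Pat ι) y = y := fun _ => rfl
  simp only [h, and_self, if_true]

theorem arc_comm (a b : ι) : arc a b = arc b a := by
  ext x
  show arc a b x = arc b a x
  rw [arc_apply, arc_apply]
  split_ifs with h1 h2 <;> simp_all

theorem cu_empty (F : Pat ι → ℂ) : opCu ℂ a b F Pat.empty = F (arc a b) := by
  rw [opCu_apply, if_pos ⟨rfl, rfl⟩]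
  rfl

theorem UD_one : UD z [q] = ev0 := by
  rw [UD_cons, UD_nil]
  simp

theorem c3_sin : Fr.c3 = sin lam := by
  unfold Fr.c3
  rw [← Complex.sin_pi_div_two_sub]
  congr 1
  unfold lam
  ring

/-- two lines, the value at the empty state -/
theorem cos_id (w : ℂ) : -I * e3 * s3 w + Fr.c3 * exp (I * (w + 3 * lam)) = cos w := by
  have h1 := two_I_s3 w
  have h2 := EXL.Fm.two_I_sin lam
  have h3 : e3 * exp (I * (w + 3 * lam)) = exp (I * (w + 6 * lam)) := by
    unfold e3; rw [← Complex.exp_add]; congr 1; ring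
  have h4 : e3 * exp (-(I * (w + 3 * lam))) = exp (-(I * w)) := by
    unfold e3; rw [← Complex.exp_add]; congr 1; ring
  have h5 : exp (I * lam) * exp (I * (w + 3 * lam)) = exp (I * w) * exp (I * (4 * lam)) := by
    rw [← Complex.exp_add, ← Complex.exp_add]; congr 1; ring
  have h6 : exp (-(I * lam)) * exp (I * (w + 3 * lam)) = exp (I * (w + 6 * lam)) * exp (-(I * (4 * lam))) := by
    rw [← Complex.exp_add, ← Complex.exp_add]; congr 1; ring
  have h7 : exp (I * (4 * lam)) = I := by
    rw [show I * (4 * lam) = (Real.pi / 2 : ℂ) * I by unfold lam; ring, Complex.exp_pi_div_two_mul_I]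
  have h8 : exp (-(I * (4 * lam))) = -I := by
    rw [Complex.exp_neg, h7, Complex.inv_I]
  have h9 : cos w = (exp (I * w) + exp (-(I * w))) / 2 := by
    rw [Complex.cos, mul_comm w I, neg_mul]
    congr 3
    ring
  rw [h7] at h5
  rw [h8] at h6
  rw [c3_sin, h9]
  have hI := Complex.I_sq
  linear_combination (-(1 / 2) * e3) * h1 - (1 / 2) * h3 + (1 / 2) * h4 +
    (-(I / 2) * exp (I * (w + 3 * lam))) * h2 - (I / 2) * h5 + (I / 2) * h6 + sin lam * exp (I * (w + 3 * lam)) * hI +
    (-(1/2)) * exp (I * w) * hI + (-(1/2)) * exp (I * (w + 6 * lam)) * hI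

theorem oE_first (z : ι → ℂ) (q : ι) (X : List ι) : oE uops z (q :: X) q = 1 := by
  unfold oE below
  rw [List.takeWhile_cons]
  simp [Glob.Ops.M]

theorem oE_second (z : ι → ℂ) (h : b ≠ q) (X : List ι) :
    oE uops z (b :: q :: X) q = uops.R q b (z q - z b) := by
  unfold oE below
  rw [List.takeWhile_cons, List.takeWhile_cons]
  simp [h, Glob.Ops.M]

/-- **Two lines.** -/
theorem UD_two (_h : p ≠ q) (F : Pat ι → ℂ) :
    UD z [p, q] F = cos (z p - z q) * F Pat.empty + sin lam * F (arc p q) := by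
  rw [UD_cons, UD_one, ← cos_id]
  simp only [List.toFinset_cons, List.toFinset_nil, insert_empty_eq, Finset.prod_singleton,
    Finset.sum_singleton, Finset.erase_singleton, Finset.prod_empty, mul_one, List.erase_cons_head,
    UD_nil, oE_first, LinearMap.add_apply, LinearMap.smul_apply, LinearMap.comp_apply, jn,
    Module.End.one_apply, ev0_apply, Pi.add_apply, Pi.smul_apply, smul_eq_mul, cu_empty, c3_sin]
  ring

/-- the rhombus on the empty state -/
theorem R_empty (h : p ≠ q) (u : ℂ) (F : Pat ι → ℂ) :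
    uops.R p q u F Pat.empty = F Pat.empty + (rwt u).u2 * F (arc p q) := by
  rw [uops_R_apply h]
  exact R_e rfl rfl rfl

/-- the rhombus on an arc -/
theorem R_arc (h : p ≠ q) (ha : a ≠ p) (hb : a ≠ q) (u : ℂ) (F : Pat ι → ℂ) :
    uops.R p q u F (arc a p) = (rwt u).v * F (arc a p) + (rwt u).u1 * F (arc a q) := by
  rw [uops_R_apply h]
  refine R_l ?_ ?_ ?_
  · show arc a p p ≠ p
    rw [arc_apply, if_neg ha.symm, if_pos rfl]
    exact ha
  · show arc a p q = q
    rw [arc_apply, if_neg hb.symm, if_neg h.symm]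
  · ext x
    show Equiv.swap p q (arc a p (Equiv.swap p q x)) = arc a q x
    rw [arc_apply, arc_apply]
    simp only [Equiv.swap_apply_def]
    split_ifs <;> simp_all

theorem sin_id (A B y : ℂ) : sin (A + y) * sin (B + y) - sin A * sin B = sin y * sin (A + B + y) := by
  rw [Complex.sin_add A y, Complex.sin_add B y, Complex.sin_add (A + B) y, Complex.sin_add A B,
    Complex.cos_add A B]
  have h := Complex.sin_sq_add_cos_sq y
  linear_combination (sin A * sin B) * h

theorem s3_five (x : ℂ) : sin (x + 5 * lam) = s3 (-x) := by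
  unfold s3
  rw [← Complex.sin_pi_sub]
  congr 1
  unfold lam
  ring

theorem t1 (x : ℂ) : -(e3 ^ 2) * s3 x + exp (I * (x + 3 * lam)) * sin (2 * lam) = s3 (-x) := by
  have h1 := two_I_s3 x
  have h2 := EXL.Fm.two_I_sin (2 * lam)
  have h3 := two_I_s3 (-x)
  have e1 : e3 ^ 2 * exp (I * (x + 3 * lam)) = -exp (I * (x + lam)) := by
    unfold e3
    rw [← Complex.exp_nat_mul, ← Complex.exp_add,
      show ((2 : ℕ) : ℂ) * (I * (3 * lam)) + I * (x + 3 * lam) = I * (8 * lam) + I * (x + lam) by
        push_cast; ring, Complex.exp_add, ex8]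
    ring
  have e2 : e3 ^ 2 * exp (-(I * (x + 3 * lam))) = exp (I * (-x + 3 * lam)) := by
    unfold e3
    rw [← Complex.exp_nat_mul, ← Complex.exp_add]
    congr 1
    push_cast
    ring
  have e4 : exp (I * (x + 3 * lam)) * exp (I * (2 * lam)) = -exp (-(I * (-x + 3 * lam))) := by
    rw [← Complex.exp_add, show I * (x + 3 * lam) + I * (2 * lam) = I * (8 * lam) + -(I * (-x + 3 * lam)) by
      ring, Complex.exp_add, ex8]
    ring
  have e5 : exp (I * (x + 3 * lam)) * exp (-(I * (2 * lam))) = exp (I * (x + lam)) := by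
    rw [← Complex.exp_add]
    congr 1
    ring
  have key : 2 * I * (-(e3 ^ 2) * s3 x + exp (I * (x + 3 * lam)) * sin (2 * lam)) = 2 * I * s3 (-x) := by
    linear_combination (-(e3 ^ 2)) * h1 + exp (I * (x + 3 * lam)) * h2 - h3 - e1 + e2 + e4 - e5
  exact mul_left_cancel₀ (mul_ne_zero two_ne_zero Complex.I_ne_zero) key

/-- **Three lines**: an arc between the first and the third line. -/
theorem UD_three (hab : a ≠ b) (haq : a ≠ q) (hbq : b ≠ q) (hs : sin (z b - z q) ≠ 0)
    (hD : Fm.Dn (z q - z b) ≠ 0) (F : Pat ι → ℂ) (h0 : F Pat.empty = 0) :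
    UD z [a, b, q] F = sin lam * (s3 (z b - z q) * s3 (z q - z a) * F (arc a b) +
      s3 (z a - z b) * s3 (z q - z a) * F (arc b q) + s3 (z a - z b) * s3 (z b - z q) * F (arc a q)) := by
  have hs' : sin (z q - z b) ≠ 0 := by
    rw [← neg_sub, Complex.sin_neg]
    exact neg_ne_zero.2 hs
  have e1 : ({b, q} : Finset ι).erase b = {q} := by
    rw [Finset.erase_insert (by simpa using hbq)]
  have e2 : ({b, q} : Finset ι).erase q = {b} := by
    rw [Finset.pair_comm, Finset.erase_insert (by simpa using hbq.symm)]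
  have e4 : ([b, q] : List ι).erase q = [b] := by
    rw [List.erase_cons_tail (by simpa using hbq), List.erase_cons_head]
  rw [UD_cons]
  simp only [List.toFinset_cons, List.toFinset_nil, insert_empty_eq, Finset.prod_pair hbq,
    Finset.sum_pair hbq, e1, e2, e4, Finset.prod_singleton, List.erase_cons_head, UD_one, oE_first,
    oE_second z hbq, LinearMap.add_apply, LinearMap.smul_apply, LinearMap.comp_apply, jn,
    Module.End.one_apply, Module.End.mul_apply, ev0_apply, Pi.add_apply, Pi.smul_apply, smul_eq_mul,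
    cu_empty, c3_sin, mul_one, UD_two hbq, h0, R_empty hbq.symm,
    R_arc hbq.symm haq hab, arc_comm q b]
  have w2 : (rwt (z q - z b)).u2 = (Fm.Dn (z q - z b))⁻¹ * (sin (2 * lam) * sin (z q - z b)) := by
    rw [EXL.Fm.rwt_eq]; rfl
  have wv : (rwt (z q - z b)).v = (Fm.Dn (z q - z b))⁻¹ * (sin (z q - z b) * sin (3 * lam - (z q - z b))) := by
    rw [EXL.Fm.rwt_eq]; rfl
  have w1 : (rwt (z q - z b)).u1 = (Fm.Dn (z q - z b))⁻¹ * (sin (2 * lam) * sin (3 * lam - (z q - z b))) := by
    rw [EXL.Fm.rwt_eq]; rfl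
  rw [w2, wv, w1]
  have f1 := t1 (z a - z q)
  rw [neg_sub] at f1
  have f2 := sin_id (2 * lam) (z a - z b + 3 * lam) (z b - z q)
  have f3 := s3_five (z a - z q)
  rw [neg_sub] at f3
  rw [show 2 * lam + (z a - z b + 3 * lam) + (z b - z q) = z a - z q + 5 * lam by ring, f3,
    show z a - z b + 3 * lam + (z b - z q) = z a - z q + 3 * lam by ring] at f2
  have f4 : sin (3 * lam - (z q - z b)) = s3 (z b - z q) := by unfold s3; congr 1; ring
  have f5 : sin (z q - z b) = -sin (z b - z q) := by rw [← neg_sub, Complex.sin_neg]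
  have f6 : Fm.Dn (z b - z q) = sin (2 * lam + (z b - z q)) * s3 (z b - z q) := by
    unfold Fm.Dn s3
    rw [add_comm (3 * lam)]
  have f7 : sin (z a - z b + 3 * lam) = s3 (z a - z b) := rfl
  have f8 : sin (z a - z q + 3 * lam) = s3 (z a - z q) := rfl
  rw [f7, f8] at f2
  unfold pd
  rw [f4, f6, f5]
  have hI := Complex.I_sq
  field_simp
  rw [mul_comm lam 2]
  linear_combination (sin lam * s3 (z b - z q) * F (arc a b)) * f2 +
    (sin lam * F (arc b q) * sin (z b - z q) * s3 (z a - z b)) * f1 +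
    (e3 ^ 2 * s3 (z a - z b) * s3 (z a - z q) * sin lam * F (arc b q) * sin (z b - z q)) * hI

end Pool.Agent.NUT51
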